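import Pool.Agent.Helper67.MD.DIL

open Finset
open scoped ComplexConjugate

namespace Pool.Agent.Helper16.MD

theorem nus_sum {D : ℕ} [NeZero D] {M : Type} [AddCommMonoid M] (f : ZMod D → M) :
    ∑ i ∈ range D, f (i : ZMod D) = ∑ x : ZMod D, f x := by
  refine Finset.sum_nbij' (fun i => (i : ZMod D)) (fun x => x.val) ?_ ?_ ?_ ?_ ?_
  · intro i _
    exact Finset.mem_univ _
  · intro x _
    exact Finset.mem_range.2 (ZMod.val_lt x)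
  · intro i hi
    exact ZMod.val_cast_of_lt (Finset.mem_range.1 hi)
  · intro x _
    exact ZMod.natCast_zmod_val x
  · intro i _
    rfl

theorem nus_ee {D : ℕ} [NeZero D] (j : ℤ) : ee ((j : ℝ) / D) = ed (j : ZMod D) := by
  unfold ee ed
  rw [ZMod.stdAddChar_coe]
  congr 1
  push_cast
  ring

theorem st_NUS : ST_NUS := by
  intro Λ G hΛ hG
  have : NeZero Λ := ⟨by omega⟩
  have hL : (0 : ℝ) < Λ := by exact_mod_cast hΛ
  have e0 : ∀ ξ : ℕ, ∑ s ∈ range Λ, G s * ee (-((ξ : ℝ) * s) / Λ) =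
      ∑ Z : ZMod Λ, G Z.val * ed (Z * (-(ξ : ZMod Λ))) := by
    intro ξ
    rw [← nus_sum (fun Z : ZMod Λ => G Z.val * ed (Z * (-(ξ : ZMod Λ))))]
    refine Finset.sum_congr rfl fun s hs => ?_
    rw [ZMod.val_cast_of_lt (Finset.mem_range.1 hs)]
    congr 1
    have h := nus_ee (D := Λ) (-((ξ : ℤ) * s))
    have h1 : (((-((ξ : ℤ) * s) : ℤ)) : ℝ) = -((ξ : ℝ) * s) := by push_cast; ring
    rw [h1] at h
    rw [h]
    congr 1
    push_cast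
    ring
  have e1 : ∑ ξ ∈ range Λ, nu Λ G ξ =
      (∑ z : ZMod Λ, ‖∑ Z : ZMod Λ, G Z.val * ed (Z * z)‖ ^ 2) / (Λ : ℝ) ^ 2 := by
    have h2 : ∀ ξ ∈ range Λ, nu Λ G ξ =
        ‖∑ Z : ZMod Λ, G Z.val * ed (Z * (-(ξ : ZMod Λ)))‖ ^ 2 / (Λ : ℝ) ^ 2 := by
      intro ξ _
      unfold nu
      rw [e0 ξ, norm_div, div_pow, Complex.norm_natCast]
    rw [Finset.sum_congr rfl h2, ← Finset.sum_div]
    congr 1
    rw [nus_sum (fun x : ZMod Λ => ‖∑ Z : ZMod Λ, G Z.val * ed (Z * (-x))‖ ^ 2)]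
    exact Equiv.sum_comp (Equiv.neg (ZMod Λ)) (fun z => ‖∑ Z : ZMod Λ, G Z.val * ed (Z * z)‖ ^ 2)
  rw [e1, dil_parseval (fun Z : ZMod Λ => G Z.val), div_le_one (by positivity)]
  have h3 : ∑ Z : ZMod Λ, ‖G Z.val‖ ^ 2 ≤ ∑ _Z : ZMod Λ, (1 : ℝ) :=
    Finset.sum_le_sum fun Z _ => pow_le_one₀ (norm_nonneg _) (hG _)
  rw [Finset.sum_const, Finset.card_univ, ZMod.card, nsmul_eq_mul, mul_one] at h3
  calc (Λ : ℝ) * ∑ Z : ZMod Λ, ‖G Z.val‖ ^ 2 ≤ Λ * Λ := by gcongr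
    _ = (Λ : ℝ) ^ 2 := by ring

end Pool.Agent.Helper16.MD
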