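import Pool.Agent.Helper16.MD.Stmts

open Finset
open scoped ComplexConjugate

namespace Pool.Agent.Helper16.MD

theorem dil_conj {D : ℕ} [NeZero D] (x : ZMod D) : conj (ed x) = ed (-x) := by
  unfold ed
  exact (AddChar.map_neg_eq_conj _ x).symm

theorem dil_add {D : ℕ} [NeZero D] (x y : ZMod D) : ed (x + y) = ed x * ed y := by
  unfold ed
  exact AddChar.map_add_eq_mul _ x y

theorem dil_zero {D : ℕ} [NeZero D] : ed (0 : ZMod D) = 1 := by
  unfold ed
  exact AddChar.map_zero_eq_one _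

theorem dil_sum {D : ℕ} [NeZero D] (b : ZMod D) :
    ∑ z : ZMod D, ed (b * z) = if b = 0 then (D : ℂ) else 0 := by
  have h := AddChar.sum_mulShift (ψ := (ZMod.stdAddChar : AddChar (ZMod D) ℂ)) b
    (ZMod.isPrimitive_stdAddChar D)
  unfold ed
  simp only [mul_comm b]
  rw [h, ZMod.card]
  split_ifs <;> simp

theorem dil_normsq (w : ℂ) : ((‖w‖ ^ 2 : ℝ) : ℂ) = w * conj w := by
  rw [Complex.mul_conj, Complex.normSq_eq_norm_sq]

/-- Parseval's identity -/
theorem dil_parseval {D : ℕ} [NeZero D] (C : ZMod D → ℂ) :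
    ∑ z : ZMod D, ‖∑ Z : ZMod D, C Z * ed (Z * z)‖ ^ 2 = D * ∑ Z : ZMod D, ‖C Z‖ ^ 2 := by
  have key : ((∑ z : ZMod D, ‖∑ Z : ZMod D, C Z * ed (Z * z)‖ ^ 2 : ℝ) : ℂ) =
      ((D * ∑ Z : ZMod D, ‖C Z‖ ^ 2 : ℝ) : ℂ) := by
    have e1 : ∀ z : ZMod D, ((‖∑ Z : ZMod D, C Z * ed (Z * z)‖ ^ 2 : ℝ) : ℂ) =
        ∑ Z : ZMod D, ∑ Z' : ZMod D, C Z * conj (C Z') * ed ((Z - Z') * z) := by
      intro z
      rw [dil_normsq, map_sum, Finset.sum_mul_sum]
      refine Finset.sum_congr rfl fun Z _ => Finset.sum_congr rfl fun Z' _ => ?_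
      rw [map_mul, dil_conj]
      have : (Z - Z') * z = Z * z + -(Z' * z) := by ring
      rw [this, dil_add]
      ring
    rw [Complex.ofReal_sum, Finset.sum_congr rfl fun z _ => e1 z, Finset.sum_comm]
    have e2 : ∀ Z : ZMod D, ∑ z : ZMod D, ∑ Z' : ZMod D, C Z * conj (C Z') * ed ((Z - Z') * z) =
        (D : ℂ) * (C Z * conj (C Z)) := by
      intro Z
      rw [Finset.sum_comm]
      have e3 : ∀ Z' : ZMod D, ∑ z : ZMod D, C Z * conj (C Z') * ed ((Z - Z') * z) =
          if Z = Z' then C Z * conj (C Z') * (D : ℂ) else 0 := by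
        intro Z'
        rw [← Finset.mul_sum, dil_sum]
        simp only [sub_eq_zero]
        split_ifs <;> simp
      rw [Finset.sum_congr rfl fun Z' _ => e3 Z', Finset.sum_ite_eq]
      simp [mul_comm]
    rw [Finset.sum_congr rfl fun Z _ => e2 Z, ← Finset.mul_sum, Complex.ofReal_mul,
      Complex.ofReal_sum, Complex.ofReal_natCast]
    congr 1
    exact Finset.sum_congr rfl fun Z _ => (dil_normsq _).symm
  exact_mod_cast key

/-- Fourier inversion -/
theorem dil_inv {D : ℕ} [NeZero D] (F : ZMod D → ℂ) (x : ZMod D) :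
    F x = ∑ X : ZMod D, hat F X * ed (X * x) := by
  have hD : (D : ℂ) ≠ 0 := by exact_mod_cast NeZero.ne D
  unfold hat
  have e1 : ∀ X : ZMod D, (∑ y : ZMod D, F y * ed (-(X * y))) / D * ed (X * x) =
      ∑ y : ZMod D, F y / D * ed ((x - y) * X) := by
    intro X
    rw [Finset.sum_div, Finset.sum_mul]
    refine Finset.sum_congr rfl fun y _ => ?_
    have : (x - y) * X = -(X * y) + X * x := by ring
    rw [this, dil_add]
    ring
  rw [Finset.sum_congr rfl fun X _ => e1 X, Finset.sum_comm]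
  have e2 : ∀ y : ZMod D, ∑ X : ZMod D, F y / D * ed ((x - y) * X) = if x = y then F y else 0 := by
    intro y
    rw [← Finset.mul_sum, dil_sum]
    simp only [sub_eq_zero]
    split_ifs
    · field_simp
    · simp
  rw [Finset.sum_congr rfl fun y _ => e2 y, Finset.sum_ite_eq]
  simp

theorem st_DIL : ST_DIL := by
  intro D _ B u F a hu
  have hD : (D : ℝ) ≠ 0 := by exact_mod_cast NeZero.ne D
  have hinv : ∀ s ∈ B, u s * (u s)⁻¹ = 1 := fun s hs => ZMod.mul_inv_of_unit _ (hu s hs)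
  have e1 : ∀ s ∈ B, ∀ z : ZMod D, F s (u s * z + a) =
      ∑ Z : ZMod D, hat (F s) ((u s)⁻¹ * Z) * ed ((u s)⁻¹ * Z * a) * ed (Z * z) := by
    intro s hs z
    rw [dil_inv (F s) (u s * z + a)]
    symm
    refine Fintype.sum_bijective (fun Z => (u s)⁻¹ * Z) ?_ _ _ ?_
    · refine Function.bijective_iff_has_inverse.2 ⟨fun X => u s * X, ?_, ?_⟩
      · intro Z
        show u s * ((u s)⁻¹ * Z) = Z
        rw [← mul_assoc, hinv s hs, one_mul]
      · intro X
        show (u s)⁻¹ * (u s * X) = X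
        rw [← mul_assoc, mul_comm (u s)⁻¹, hinv s hs, one_mul]
    · intro Z
      have h2 : (u s)⁻¹ * Z * (u s * z + a) = (u s)⁻¹ * Z * a + Z * z := by
        have : (u s)⁻¹ * Z * (u s * z + a) = (u s)⁻¹ * Z * a + (u s * (u s)⁻¹) * (Z * z) := by ring
        rw [this, hinv s hs, one_mul]
      show _ = hat (F s) ((u s)⁻¹ * Z) * ed ((u s)⁻¹ * Z * (u s * z + a))
      rw [h2, dil_add]
      ring
  have e2 : ∀ z : ZMod D, ∑ s ∈ B, F s (u s * z + a) =
      ∑ Z : ZMod D, (∑ s ∈ B, hat (F s) ((u s)⁻¹ * Z) * ed ((u s)⁻¹ * Z * a)) * ed (Z * z) := by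
    intro z
    rw [Finset.sum_congr rfl fun s hs => e1 s hs z, Finset.sum_comm]
    exact Finset.sum_congr rfl fun Z _ => by rw [Finset.sum_mul]
  rw [Finset.sum_congr rfl fun z _ => by rw [e2 z], dil_parseval]
  field_simp

end Pool.Agent.Helper16.MD
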