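import Pool.Agent.Helper16.MD.Stmts

open Finset
open scoped ComplexConjugate

namespace Pool.Agent.Helper16.MD

theorem ena_count (i d v : ℕ) (hd : 0 < d) :
    (((Ioc (2 ^ i) (2 ^ (i + 1))).filter (fun x => x ≡ v [MOD d])).card : ℝ) ≤
      (2 : ℝ) ^ i / d + 1 := by
  have h := Nat.Ioc_filter_modEq_card (2 ^ i) (2 ^ (i + 1)) hd v
  have hdq : (0 : ℚ) < d := by exact_mod_cast hd
  have h1 : ((((Ioc (2 ^ i) (2 ^ (i + 1))).filter (fun x => x ≡ v [MOD d])).card : ℤ) : ℚ) ≤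
      (2 : ℚ) ^ i / d + 1 := by
    rw [h]
    push_cast
    refine max_le ?_ (by positivity)
    have a1 := Int.floor_le (((2 : ℚ) ^ (i + 1) - v) / d)
    have a2 := Int.lt_floor_add_one (((2 : ℚ) ^ i - v) / d)
    have a3 : ((2 : ℚ) ^ (i + 1) - v) / d - ((2 : ℚ) ^ i - v) / d = (2 : ℚ) ^ i / d := by
      rw [← sub_div]
      congr 1
      ring
    linarith
  have h2 : (((((Ioc (2 ^ i) (2 ^ (i + 1))).filter (fun x => x ≡ v [MOD d])).card : ℚ)) : ℝ) ≤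
      (((2 : ℚ) ^ i / d + 1 : ℚ) : ℝ) := by
    exact_mod_cast h1
  push_cast at h2
  exact h2

theorem ena_unit {i d : ℕ} [NeZero d] {Q : Finset ℕ} (hQ : Pb d i Q) {p : ℕ} (hp : p ∈ Q) :
    IsUnit (p : ZMod d) := by
  obtain ⟨hp1, _, _, hp2⟩ := hQ p hp
  rw [ZMod.isUnit_iff_coprime]
  exact (Nat.Prime.coprime_iff_not_dvd hp1).2 hp2

theorem st_ENA : ST_ENA := by
  intro i d _ Q hQ
  have hd : 0 < d := Nat.pos_of_ne_zero (NeZero.ne d)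
  unfold JJ
  have h1 : ((Q ×ˢ Q).filter (fun u : ℕ × ℕ => (u.1 : ZMod d)⁻¹ = (u.2 : ZMod d)⁻¹)).card =
      ∑ p ∈ Q, (Q.filter (fun p' : ℕ => (p : ZMod d)⁻¹ = (p' : ZMod d)⁻¹)).card := by
    rw [Finset.card_filter, Finset.sum_product]
    exact Finset.sum_congr rfl fun p _ => (Finset.card_filter _ _).symm
  have h2 : ∀ p ∈ Q, ((Q.filter (fun p' : ℕ => (p : ZMod d)⁻¹ = (p' : ZMod d)⁻¹)).card : ℝ) ≤
      (2 : ℝ) ^ i / d + 1 := by
    intro p hp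
    refine le_trans ?_ (ena_count i d p hd)
    have hsub : Q.filter (fun p' : ℕ => (p : ZMod d)⁻¹ = (p' : ZMod d)⁻¹) ⊆
        (Ioc (2 ^ i) (2 ^ (i + 1))).filter (fun x => x ≡ p [MOD d]) := by
      intro p' hp'
      rw [Finset.mem_filter] at hp' ⊢
      obtain ⟨hQ', heq⟩ := hp'
      obtain ⟨_, g1, g2, _⟩ := hQ p' hQ'
      refine ⟨Finset.mem_Ioc.2 ⟨g1, g2⟩, ?_⟩
      rw [← ZMod.natCast_eq_natCast_iff]
      have u1 := ZMod.mul_inv_of_unit _ (ena_unit hQ hp)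
      have u2 := ZMod.mul_inv_of_unit _ (ena_unit hQ hQ')
      calc (p' : ZMod d) = p' * (p * (p : ZMod d)⁻¹) := by rw [u1, mul_one]
        _ = p * (p' * (p' : ZMod d)⁻¹) := by rw [heq]; ring
        _ = p := by rw [u2, mul_one]
    exact_mod_cast Finset.card_le_card hsub
  calc (((Q ×ˢ Q).filter (fun u : ℕ × ℕ => (u.1 : ZMod d)⁻¹ = (u.2 : ZMod d)⁻¹)).card : ℝ)
      = ∑ p ∈ Q, ((Q.filter (fun p' : ℕ => (p : ZMod d)⁻¹ = (p' : ZMod d)⁻¹)).card : ℝ) := by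
        rw [h1]
        push_cast
        rfl
    _ ≤ ∑ _p ∈ Q, ((2 : ℝ) ^ i / d + 1) := Finset.sum_le_sum h2
    _ = Q.card * ((2 : ℝ) ^ i / d + 1) := by rw [Finset.sum_const, nsmul_eq_mul]

end Pool.Agent.Helper16.MD
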