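import Pool.Agent.Helper16.MD.Stmts

open Finset
open scoped ComplexConjugate

namespace Pool.Agent.Helper16.MD

theorem exv_normsq (w : ℂ) : ((‖w‖ ^ 2 : ℝ) : ℂ) = w * conj w := by
  rw [Complex.mul_conj, Complex.normSq_eq_norm_sq]

theorem exv_core {ι : Type} (B : Finset ι) (H : ℕ) (x : ι → ℕ → ℂ) :
    ∑ s ∈ B, ∑ t ∈ B, ‖∑ h ∈ range H, x s h * conj (x t h)‖ ^ 2 =
      ∑ h ∈ range H, ∑ h' ∈ range H, ‖∑ s ∈ B, x s h * conj (x s h')‖ ^ 2 := by
  have key : ((∑ s ∈ B, ∑ t ∈ B, ‖∑ h ∈ range H, x s h * conj (x t h)‖ ^ 2 : ℝ) : ℂ) =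
      ((∑ h ∈ range H, ∑ h' ∈ range H, ‖∑ s ∈ B, x s h * conj (x s h')‖ ^ 2 : ℝ) : ℂ) := by
    have eL : ((∑ s ∈ B, ∑ t ∈ B, ‖∑ h ∈ range H, x s h * conj (x t h)‖ ^ 2 : ℝ) : ℂ) =
        ∑ s ∈ B, ∑ t ∈ B, ∑ h ∈ range H, ∑ h' ∈ range H,
          (x s h * conj (x t h)) * (conj (x s h') * x t h') := by
      push_cast
      refine Finset.sum_congr rfl fun s _ => Finset.sum_congr rfl fun t _ => ?_
      have := exv_normsq (∑ h ∈ range H, x s h * conj (x t h))
      push_cast at this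
      rw [this, map_sum, Finset.sum_mul_sum]
      refine Finset.sum_congr rfl fun h _ => Finset.sum_congr rfl fun h' _ => ?_
      rw [map_mul, Complex.conj_conj]
    have eR : ((∑ h ∈ range H, ∑ h' ∈ range H, ‖∑ s ∈ B, x s h * conj (x s h')‖ ^ 2 : ℝ) : ℂ) =
        ∑ h ∈ range H, ∑ h' ∈ range H, ∑ s ∈ B, ∑ t ∈ B,
          (x s h * conj (x t h)) * (conj (x s h') * x t h') := by
      push_cast
      refine Finset.sum_congr rfl fun h _ => Finset.sum_congr rfl fun h' _ => ?_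
      have := exv_normsq (∑ s ∈ B, x s h * conj (x s h'))
      push_cast at this
      rw [this, map_sum, Finset.sum_mul_sum]
      refine Finset.sum_congr rfl fun s _ => Finset.sum_congr rfl fun t _ => ?_
      rw [map_mul, Complex.conj_conj]
      ring
    rw [eL, eR]
    have c1 : ∀ s ∈ B, ∑ t ∈ B, ∑ h ∈ range H, ∑ h' ∈ range H,
        (x s h * conj (x t h)) * (conj (x s h') * x t h') =
        ∑ h ∈ range H, ∑ h' ∈ range H, ∑ t ∈ B,
        (x s h * conj (x t h)) * (conj (x s h') * x t h') := by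
      intro s _
      rw [Finset.sum_comm]
      exact Finset.sum_congr rfl fun h _ => Finset.sum_comm
    rw [Finset.sum_congr rfl c1, Finset.sum_comm]
    exact Finset.sum_congr rfl fun h _ => Finset.sum_comm
  exact_mod_cast key

theorem st_EXV : ST_EXV := by
  intro n Λ a H G B
  unfold VV
  rw [Finset.sum_congr rfl fun s _ => (Finset.sum_div _ _ _).symm, ← Finset.sum_div]
  congr 1
  have c1 : ∀ s ∈ B, ∑ t ∈ B, ∑ z ∈ range (n * Λ), ‖∑ h ∈ range H,
      G ((pr s * z + a) / n + pr s * h) * conj (G ((pr t * z + a) / n + pr t * h))‖ ^ 2 =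
      ∑ z ∈ range (n * Λ), ∑ t ∈ B, ‖∑ h ∈ range H,
      G ((pr s * z + a) / n + pr s * h) * conj (G ((pr t * z + a) / n + pr t * h))‖ ^ 2 :=
    fun s _ => Finset.sum_comm
  rw [Finset.sum_congr rfl c1, Finset.sum_comm]
  have c2 : ∀ h ∈ range H, ∑ h' ∈ range H, ∑ z ∈ range (n * Λ), ‖∑ s ∈ B,
      G ((pr s * z + a) / n + pr s * h) * conj (G ((pr s * z + a) / n + pr s * h'))‖ ^ 2 =
      ∑ z ∈ range (n * Λ), ∑ h' ∈ range H, ‖∑ s ∈ B,
      G ((pr s * z + a) / n + pr s * h) * conj (G ((pr s * z + a) / n + pr s * h'))‖ ^ 2 :=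
    fun s _ => Finset.sum_comm
  rw [Finset.sum_congr rfl c2, Finset.sum_comm (s := range H)]
  exact Finset.sum_congr rfl fun z _ =>
    exv_core B H (fun s h => G ((pr s * z + a) / n + pr s * h))

end Pool.Agent.Helper16.MD
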