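import Pool.Agent.Helper67.MD.DIL

open Finset
open scoped ComplexConjugate

namespace Pool.Agent.Helper16.MD

theorem fej_norm {D : ℕ} [NeZero D] (x : ZMod D) : ‖ed x‖ = 1 := by
  have h : ((‖ed x‖ ^ 2 : ℝ) : ℂ) = 1 := by
    rw [dil_normsq, dil_conj, ← dil_add, add_neg_cancel, dil_zero]
  have h' : ‖ed x‖ ^ 2 = 1 := by exact_mod_cast h
  have h0 : 0 ≤ ‖ed x‖ := norm_nonneg _
  nlinarith

theorem fej_pow {D : ℕ} [NeZero D] (m : ℕ) (x : ZMod D) : ed ((m : ZMod D) * x) = ed x ^ m := by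
  induction m with
  | zero => rw [Nat.cast_zero, zero_mul, dil_zero, pow_zero]
  | succ m ih =>
    have : ((m + 1 : ℕ) : ZMod D) * x = (m : ZMod D) * x + x := by push_cast; ring
    rw [this, dil_add, ih, pow_succ]

theorem fej_sin {D : ℕ} [NeZero D] (m : ℕ) (x : ZMod D) :
    ‖ed x ^ m - 1‖ = 2 * |Real.sin (Real.pi * (m * (x.valMinAbs : ℝ)) / D)| := by
  have h1 : ed x ^ m = Complex.exp (Complex.I *
      ((2 * (Real.pi * (m * (x.valMinAbs : ℝ)) / D) : ℝ) : ℂ)) := by
    have h2 : ed x = Complex.exp (2 * Real.pi * Complex.I * (x.valMinAbs : ℤ) / D) := by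
      unfold ed
      rw [← ZMod.stdAddChar_coe, ZMod.coe_valMinAbs]
    rw [h2, ← Complex.exp_nat_mul]
    congr 1
    push_cast
    ring
  rw [h1, Complex.norm_exp_I_mul_ofReal_sub_one]
  have h3 : 2 * (Real.pi * (m * (x.valMinAbs : ℝ)) / D) / 2 =
      Real.pi * (m * (x.valMinAbs : ℝ)) / D := by ring
  rw [h3, norm_mul, Real.norm_eq_abs, Real.norm_eq_abs, abs_of_pos (by norm_num : (0 : ℝ) < 2)]

theorem fej_lower {D : ℕ} [NeZero D] (M : ℕ) (x : ZMod D)
    (hx : 2 * M * |x.valMinAbs| ≤ (D : ℤ)) :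
    2 / Real.pi * M ≤ ‖∑ m ∈ range M, ed ((m : ZMod D) * x)‖ := by
  have hpi := Real.pi_pos
  have hD : (0 : ℝ) < D := by exact_mod_cast Nat.pos_of_ne_zero (NeZero.ne D)
  rw [Finset.sum_congr rfl fun m _ => fej_pow m x]
  set v : ℝ := (x.valMinAbs : ℝ) with hv
  have hxr : 2 * (M : ℝ) * |v| ≤ D := by
    have : ((2 * M * |x.valMinAbs| : ℤ) : ℝ) ≤ ((D : ℤ) : ℝ) := by exact_mod_cast hx
    push_cast at this
    exact this
  rcases eq_or_ne v 0 with h0 | h0
  · have hv0 : x.valMinAbs = 0 := by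
      rw [hv] at h0
      exact_mod_cast h0
    have hx0 : x = 0 := (ZMod.valMinAbs_eq_zero x).1 hv0
    rw [hx0, dil_zero]
    simp only [one_pow, Finset.sum_const, Finset.card_range, nsmul_eq_mul, mul_one,
      Complex.norm_natCast]
    have h2 : 2 / Real.pi ≤ 1 := by
      rw [div_le_one hpi]
      linarith [Real.pi_gt_three]
    have hM : (0 : ℝ) ≤ M := Nat.cast_nonneg M
    nlinarith
  · have hav : 0 < |v| := abs_pos.2 h0
    have hgeom : (∑ m ∈ range M, ed x ^ m) * (ed x - 1) = ed x ^ M - 1 := geom_sum_mul _ _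
    have hn := congrArg norm hgeom
    rw [norm_mul, fej_sin M x] at hn
    have h1 := fej_sin 1 x
    rw [pow_one, Nat.cast_one, one_mul] at h1
    have h2 : ‖ed x - 1‖ ≤ 2 * (Real.pi * |v| / D) := by
      rw [h1]
      have := Real.abs_sin_le_abs (x := Real.pi * v / D)
      have h3 : |Real.pi * v / D| = Real.pi * |v| / D := by
        rw [abs_div, abs_mul, abs_of_pos hpi, abs_of_pos hD]
      rw [h3] at this
      linarith
    have h4 : |Real.pi * (M * v) / D| = Real.pi * (M * |v|) / D := by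
      rw [abs_div, abs_mul, abs_mul, abs_of_pos hpi, abs_of_pos hD, Nat.abs_cast]
    have h5 : 2 / Real.pi * (Real.pi * (M * |v|) / D) ≤ |Real.sin (Real.pi * (M * v) / D)| := by
      rw [← h4]
      apply Real.mul_abs_le_abs_sin
      rw [h4, div_le_div_iff₀ hD (by norm_num)]
      nlinarith
    have h6 : 2 / Real.pi * (Real.pi * (M * |v|) / D) = 2 * M * |v| / D := by
      field_simp
    rw [h6] at h5
    have h7 : 2 * (2 * M * |v| / D) ≤
        ‖∑ m ∈ range M, ed x ^ m‖ * (2 * (Real.pi * |v| / D)) := by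
      calc 2 * (2 * M * |v| / D) ≤ 2 * |Real.sin (Real.pi * (M * v) / D)| := by linarith
        _ = ‖∑ m ∈ range M, ed x ^ m‖ * ‖ed x - 1‖ := hn.symm
        _ ≤ _ := mul_le_mul_of_nonneg_left h2 (norm_nonneg _)
    have h8 : 2 * (2 * M * |v| / D) = (2 / Real.pi * M) * (2 * (Real.pi * |v| / D)) := by
      field_simp
    rw [h8] at h7
    exact le_of_mul_le_mul_right h7 (by positivity)

theorem st_FEJ : ST_FEJ := by
  intro ι D M _ B W ε hM hε hW
  have hpi := Real.pi_pos
  have hMr : (0 : ℝ) < M := by exact_mod_cast hM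
  have hB0 : (0 : ℝ) ≤ B.card := Nat.cast_nonneg _
  -- pairs
  have hpair : ∀ m ∈ range M, ∀ m' ∈ range M,
      ‖∑ i ∈ B, ed (((m : ZMod D) - (m' : ZMod D)) * W i)‖ ≤
        (if m = m' then (B.card : ℝ) else 0) + ε * B.card := by
    intro m hm m' hm'
    rw [Finset.mem_range] at hm hm'
    rcases lt_trichotomy m m' with h | h | h
    · rw [if_neg (by omega), zero_add]
      have e : ∑ i ∈ B, ed (((m : ZMod D) - (m' : ZMod D)) * W i) =
          conj (∑ i ∈ B, ed (((m' - m : ℕ) : ZMod D) * W i)) := by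
        rw [map_sum]
        refine Finset.sum_congr rfl fun i _ => ?_
        rw [dil_conj, Nat.cast_sub h.le]
        congr 1
        ring
      rw [e, RCLike.norm_conj]
      exact hW (m' - m) (by omega) (by omega)
    · subst h
      rw [if_pos rfl]
      simp only [sub_self, zero_mul, dil_zero, Finset.sum_const, nsmul_eq_mul, mul_one,
        Complex.norm_natCast]
      have : 0 ≤ ε * B.card := mul_nonneg hε hB0
      linarith
    · rw [if_neg (by omega), zero_add]
      have e : ∑ i ∈ B, ed (((m : ZMod D) - (m' : ZMod D)) * W i) =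
          ∑ i ∈ B, ed (((m - m' : ℕ) : ZMod D) * W i) := by
        refine Finset.sum_congr rfl fun i _ => ?_
        rw [Nat.cast_sub h.le]
      rw [e]
      exact hW (m - m') (by omega) (by omega)
  -- mean square
  have hsq : ∑ i ∈ B, ‖∑ m ∈ range M, ed ((m : ZMod D) * W i)‖ ^ 2 ≤
      M * B.card + (M : ℝ) ^ 2 * (ε * B.card) := by
    have e1 : ((∑ i ∈ B, ‖∑ m ∈ range M, ed ((m : ZMod D) * W i)‖ ^ 2 : ℝ) : ℂ) =
        ∑ m ∈ range M, ∑ m' ∈ range M, ∑ i ∈ B,
          ed (((m : ZMod D) - (m' : ZMod D)) * W i) := by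
      rw [Complex.ofReal_sum]
      have e2 : ∀ i ∈ B, ((‖∑ m ∈ range M, ed ((m : ZMod D) * W i)‖ ^ 2 : ℝ) : ℂ) =
          ∑ m ∈ range M, ∑ m' ∈ range M, ed (((m : ZMod D) - (m' : ZMod D)) * W i) := by
        intro i _
        rw [dil_normsq, map_sum, Finset.sum_mul_sum]
        refine Finset.sum_congr rfl fun m _ => Finset.sum_congr rfl fun m' _ => ?_
        rw [dil_conj, ← dil_add]
        congr 1
        ring
      rw [Finset.sum_congr rfl e2, Finset.sum_comm]
      exact Finset.sum_congr rfl fun m _ => Finset.sum_comm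
    have e3 : ∑ i ∈ B, ‖∑ m ∈ range M, ed ((m : ZMod D) * W i)‖ ^ 2 =
        ‖((∑ i ∈ B, ‖∑ m ∈ range M, ed ((m : ZMod D) * W i)‖ ^ 2 : ℝ) : ℂ)‖ := by
      rw [Complex.norm_real, Real.norm_eq_abs, abs_of_nonneg]
      positivity
    rw [e3, e1]
    calc ‖∑ m ∈ range M, ∑ m' ∈ range M, ∑ i ∈ B,
          ed (((m : ZMod D) - (m' : ZMod D)) * W i)‖
        ≤ ∑ m ∈ range M, ∑ m' ∈ range M, ‖∑ i ∈ B,
          ed (((m : ZMod D) - (m' : ZMod D)) * W i)‖ :=
          (norm_sum_le _ _).trans (Finset.sum_le_sum fun m _ => norm_sum_le _ _)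
      _ ≤ ∑ m ∈ range M, ∑ m' ∈ range M,
          ((if m = m' then (B.card : ℝ) else 0) + ε * B.card) :=
          Finset.sum_le_sum fun m hm => Finset.sum_le_sum fun m' hm' => hpair m hm m' hm'
      _ = M * B.card + (M : ℝ) ^ 2 * (ε * B.card) := by
          have e4 : ∀ m ∈ range M, ∑ m' ∈ range M,
              ((if m = m' then (B.card : ℝ) else 0) + ε * B.card) =
              B.card + M * (ε * B.card) := by
            intro m hm
            rw [Finset.sum_add_distrib, Finset.sum_ite_eq, if_pos hm, Finset.sum_const,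
              Finset.card_range, nsmul_eq_mul]
          rw [Finset.sum_congr rfl e4, Finset.sum_const, Finset.card_range, nsmul_eq_mul]
          ring
  -- lower bound
  set N := B.filter fun i => 2 * M * |(W i).valMinAbs| ≤ (D : ℤ) with hN
  have hlow : (N.card : ℝ) * (2 / Real.pi * M) ^ 2 ≤
      ∑ i ∈ B, ‖∑ m ∈ range M, ed ((m : ZMod D) * W i)‖ ^ 2 := by
    calc (N.card : ℝ) * (2 / Real.pi * M) ^ 2 = ∑ _i ∈ N, (2 / Real.pi * M) ^ 2 := by
          rw [Finset.sum_const, nsmul_eq_mul]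
      _ ≤ ∑ i ∈ N, ‖∑ m ∈ range M, ed ((m : ZMod D) * W i)‖ ^ 2 := by
          refine Finset.sum_le_sum fun i hi => ?_
          have := fej_lower M (W i) (Finset.mem_filter.1 hi).2
          exact pow_le_pow_left₀ (by positivity) this 2
      _ ≤ _ := Finset.sum_le_sum_of_subset_of_nonneg (Finset.filter_subset _ _)
          fun i _ _ => by positivity
  have h1 := hlow.trans hsq
  have hpi2 : Real.pi ^ 2 ≤ 12 := by
    have := Real.pi_lt_d2
    nlinarith
  have h2 : (N.card : ℝ) ≤ Real.pi ^ 2 / 4 * ((1 / M + ε) * B.card) := by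
    have e5 : (N.card : ℝ) * (2 / Real.pi * M) ^ 2 =
        (N.card : ℝ) * (4 * (M : ℝ) ^ 2 / Real.pi ^ 2) := by
      field_simp
      ring
    have e6 : M * (B.card : ℝ) + (M : ℝ) ^ 2 * (ε * B.card) =
        (Real.pi ^ 2 / 4 * ((1 / M + ε) * B.card)) * (4 * (M : ℝ) ^ 2 / Real.pi ^ 2) := by
      field_simp
    rw [e5, e6] at h1
    exact le_of_mul_le_mul_right h1 (by positivity)
  have h3 : 0 ≤ (1 / (M : ℝ) + ε) * B.card := by positivity
  calc (N.card : ℝ) ≤ Real.pi ^ 2 / 4 * ((1 / M + ε) * B.card) := h2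
    _ ≤ 3 * ((1 / M + ε) * B.card) := by
        apply mul_le_mul_of_nonneg_right _ h3
        linarith
    _ = 3 * (1 / M + ε) * B.card := by ring

end Pool.Agent.Helper16.MD
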